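import Pool.Agent.helper83.ORE.SpecDE

/-!
# Row DSQ: autocorrelations
-/

set_option autoImplicit false

namespace Pool.Agent.ORE

open Module Pool.Agent.GS

open scoped BigOperators

theorem DSQ_inj {E : Type} [Field E] (h2 : (2 : E) = 0) {x y : E} (h : x * x = y * y) :
    x = y := by
  have h1 : (x - y) * (x - y) = 0 := by linear_combination h + (y * y - x * y) * h2
  exact sub_eq_zero.mp (mul_self_eq_zero.mp h1)

theorem DSQ_bij {E : Type} [Field E] [Finite E] (ρ : E) (h2 : (2 : E) = 0) :
    Function.Bijective (fun z : QL ρ => z * z) := by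
  have hinjE : Function.Injective (fun x : E => x * x) := fun x y h => DSQ_inj h2 h
  have hsurjE : Function.Surjective (fun x : E => x * x) :=
    Finite.injective_iff_surjective.mp hinjE
  constructor
  · intro z w h
    have hre := congrArg QuadraticAlgebra.re h
    have him := congrArg QuadraticAlgebra.im h
    simp only [QuadraticAlgebra.re_mul, QuadraticAlgebra.im_mul] at hre him
    have e1 : z.im = w.im := by
      apply DSQ_inj h2
      linear_combination him - (z.re * z.im - w.re * w.im) * h2
    have e2 : z.re = w.re := by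
      apply DSQ_inj h2
      rw [e1] at hre
      linear_combination hre
    exact QuadraticAlgebra.ext e2 e1
  · intro z
    obtain ⟨q, hq⟩ := hsurjE z.im
    obtain ⟨r, hr⟩ := hsurjE (z.re + ρ * z.im)
    have hq' : q * q = z.im := hq
    have hr' : r * r = z.re + ρ * z.im := hr
    refine ⟨⟨r, q⟩, ?_⟩
    apply QuadraticAlgebra.ext
    · simp only [QuadraticAlgebra.re_mul]
      linear_combination hr' + ρ * hq' + (ρ * z.im) * h2
    · simp only [QuadraticAlgebra.im_mul]
      linear_combination hq' + (r * q) * h2

theorem DSQ : DSQ_stmt := by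
  intro E _ _ ρ h2 n _ hn c hc
  classical
  obtain ⟨hinj, hsurj⟩ := DSQ_bij ρ h2
  choose s hs using hsurj
  have hs' : ∀ z, s z * s z = z := hs
  have hstar : ∀ z, s (star z) = star (s z) := by
    intro z
    apply hinj
    show s (star z) * s (star z) = star (s z) * star (s z)
    rw [hs', ← star_mul', hs']
  have hadd : ∀ z : QL ρ, z + z = 0 := by
    intro z
    apply QuadraticAlgebra.ext
    · simp only [QuadraticAlgebra.re_add, QuadraticAlgebra.re_zero]
      linear_combination z.re * h2
    · simp only [QuadraticAlgebra.im_add, QuadraticAlgebra.im_zero]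
      linear_combination z.im * h2
  -- halving modulo `n`
  obtain ⟨m, hm⟩ := hn
  have hhalf : (2 : ZMod n) * ((m + 1 : ℕ) : ZMod n) = 1 := by
    have h1 : ((2 * (m + 1) : ℕ) : ZMod n) = ((n + 1 : ℕ) : ZMod n) := by
      congr 1
      omega
    push_cast at h1
    rw [ZMod.natCast_self, zero_add] at h1
    push_cast
    exact h1
  let u : ZMod n → QL ρ := fun i => s (c (-(2 * i)))
  have hu : ∀ i, star (u i) = u (-i) := by
    intro i
    show star (s (c (-(2 * i)))) = s (c (-(2 * -i)))
    rw [← hstar, ← hc]
    congr 2
    ring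
  refine ⟨u, fun l => ?_⟩
  let f : ZMod n → QL ρ := fun i => u i * u (-i - l)
  have hf : ∀ i, u i * star (u (i + l)) = f i := by
    intro i
    show _ = u i * u (-i - l)
    rw [hu]
    congr 2
    ring
  rw [Finset.sum_congr rfl fun i _ => hf i]
  let i₀ : ZMod n := -l * ((m + 1 : ℕ) : ZMod n)
  have hi₀ : 2 * i₀ = -l := by
    show 2 * (-l * ((m + 1 : ℕ) : ZMod n)) = -l
    linear_combination (-l) * hhalf
  have huniq : ∀ i : ZMod n, -i - l = i → i = i₀ := by
    intro i hi
    have h3 : 2 * i = 2 * i₀ := by
      rw [hi₀]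
      linear_combination -hi
    calc i = (2 * i) * ((m + 1 : ℕ) : ZMod n) := by linear_combination (-i) * hhalf
      _ = (2 * i₀) * ((m + 1 : ℕ) : ZMod n) := by rw [h3]
      _ = i₀ := by linear_combination i₀ * hhalf
  rw [← Finset.add_sum_erase _ _ (Finset.mem_univ i₀)]
  have hzero : ∑ i ∈ Finset.univ.erase i₀, f i = 0 := by
    apply Finset.sum_involution (fun i _ => -i - l)
    · intro i _
      have : f (-i - l) = f i := by
        show u (-i - l) * u (-(-i - l) - l) = u i * u (-i - l)
        rw [mul_comm]
        congr 2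
        ring
      rw [this]
      exact hadd _
    · intro i hi _ h
      exact (Finset.ne_of_mem_erase hi) (huniq i h)
    · intro i hi
      rw [Finset.mem_erase]
      refine ⟨?_, Finset.mem_univ _⟩
      intro h
      apply Finset.ne_of_mem_erase hi
      have h3 : i = -i₀ - l := by rw [← h]; ring
      rw [h3]
      linear_combination -hi₀
    · intro i _
      ring
  rw [hzero, add_zero]
  show u i₀ * u (-i₀ - l) = c l
  have h3 : -i₀ - l = i₀ := by linear_combination -hi₀
  rw [h3]
  show s (c (-(2 * i₀))) * s (c (-(2 * i₀))) = c l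
  rw [hs', hi₀, neg_neg]

end Pool.Agent.ORE
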